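import Pool.Agent.Helper66_ML.Stmts2
import Pool.Agent.Helper10_ML.Glu
import Pool.Agent.Helper79_WRA.Final
import Pool.Agent.Helper97_CC.Lab

/-!
# Squad ML, stage 2: the common part of the rows NN2 and NN3
-/

open scoped BigOperators

noncomputable section

namespace Pool.Agent.PP.ML.H27

open Pool.Agent.Helper51_AWC Pool.Agent.Helper79_WRA Pool.Agent.PP Pool.Agent.Helper98_CC
open Pool.Agent.Helper90_CC

/-! ## Elements with elementary abelian Sylow subgroups of the centraliser -/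

theorem exists_syl' (ℓ : ℕ) [hp : Fact ℓ.Prime] {G : Type} [Group G] [Finite G] (g : G) :
    ∃ R : Subgroup G, IsPGroup ℓ R ∧ R ≤ Subgroup.centralizer ({g} : Set G) ∧
      (¬ ℓ ∣ R.relIndex (Subgroup.centralizer ({g} : Set G))) ∧
      ∀ k n : ℕ, (g ^ k) ^ ℓ ^ n = 1 → g ^ k ∈ R := by
  obtain ⟨R, hR, hRC, ⟨m, hm, hm'⟩, hk⟩ := H10.exists_syl ℓ g
  refine ⟨R, hR, hRC, ?_, hk⟩
  have h1 : Nat.card R * R.relIndex (Subgroup.centralizer ({g} : Set G)) =
      Nat.card (Subgroup.centralizer ({g} : Set G)) := by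
    rw [← Subgroup.relIndex_bot_left R,
      ← Subgroup.relIndex_bot_left (Subgroup.centralizer ({g} : Set G))]
    exact Subgroup.relIndex_mul_relIndex _ _ _ bot_le hRC
  have h2 : Nat.card R * R.relIndex (Subgroup.centralizer ({g} : Set G)) = Nat.card R * m := by
    rw [h1]
    exact hm
  have h3 := Nat.eq_of_mul_eq_mul_left Nat.card_pos h2
  rw [h3]
  exact hm'

/-- DV for an element with elementary abelian Sylow subgroups of the centraliser, which is not
`ℓ`-regular. -/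
theorem dv (hD : DvrStmt) (ℓ : ℕ) [hp : Fact ℓ.Prime] {G : Type} [Group G] [Finite G]
    (g : G) (hreg : ¬ Reg ℓ g)
    (hab : ∀ Q : Subgroup G, IsPGroup ℓ Q → Q ≤ Subgroup.centralizer ({g} : Set G) → ElAb ℓ Q) :
    (ℓ = 3 → DV ℓ (3 * ℓ) 2 g) ∧ (ℓ = 2 → DV ℓ (4 * ℓ) 1 g) := by
  obtain ⟨R, hR, hRC, hidx, hk⟩ := exists_syl' ℓ g
  have hdv : ℓ ∣ orderOf g := by
    by_contra h
    exact hreg ((hp.out.coprime_iff_not_dvd.2 h).symm)
  have hord : orderOf (g ^ (orderOf g / ℓ)) = ℓ :=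
    orderOf_pow_orderOf_div (orderOf_pos g).ne' hdv
  have hpow : (g ^ (orderOf g / ℓ)) ^ ℓ ^ 1 = 1 := by
    rw [pow_one]
    conv_lhs => rw [← hord]
    rw [hord]
    have := pow_orderOf_eq_one (g ^ (orderOf g / ℓ))
    rwa [hord] at this
  have hmem := hk _ 1 hpow
  obtain ⟨hRab, hRe⟩ := hab R hR hRC
  have key := @hD ℓ hp G R _ _ (H10.mkComm (inferInstance : Group R) hRab) R g
    { toFun := fun x => x, map_one' := rfl, map_mul' := fun _ _ => rfl } hR hRC hidx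
    (orderOf g / ℓ) hmem
  have h1 : @orderOf R (H10.mkComm (inferInstance : Group R) hRab).toMonoid
      (⟨g ^ (orderOf g / ℓ), hmem⟩ : R) = ℓ := by
    have h2 : orderOf (⟨g ^ (orderOf g / ℓ), hmem⟩ : R) = ℓ := by
      rw [Subgroup.orderOf_mk]
      exact hord
    exact h2
  have hne : ∀ r ∈ R, r ^ ℓ ≠ g ^ (orderOf g / ℓ) := by
    intro r hr h
    have h3 := congrArg Subtype.val (hRe ⟨r, hr⟩)
    have h4 : r ^ ℓ = 1 := h3
    rw [h4] at h
    rw [← h, orderOf_one] at hord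
    exact hp.out.one_lt.ne hord
  obtain ⟨-, k3, k2⟩ := key
  constructor
  · intro hl
    have h5 := k3 (by rw [← hl]; exact hne)
    change DV ℓ (3 * @orderOf R (H10.mkComm (inferInstance : Group R) hRab).toMonoid
      (⟨g ^ (orderOf g / ℓ), hmem⟩ : R)) 2 g at h5
    rwa [h1] at h5
  · intro hl
    have h5 := k2 (by rw [← hl]; exact hne)
    change DV ℓ (4 * @orderOf R (H10.mkComm (inferInstance : Group R) hRab).toMonoid
      (⟨g ^ (orderOf g / ℓ), hmem⟩ : R)) 1 g at h5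
    rwa [h1] at h5

attribute [local instance] Ideal.Quotient.field

/-! ## The element `z` -/

section main

variable {ℓ : ℕ} [hp : Fact ℓ.Prime] {M : Ideal (integralClosure ℤ ℂ)} [hM : M.IsMaximal]

/-- the element `z = f (Λ - 1)` -/
def zz (ℓ : ℕ) {M : Ideal (integralClosure ℤ ℂ)} [hM : M.IsMaximal] {G : Type} [Group G]
    (f : G → FF M) : G → FF M :=
  mulF f (ellS ℓ (FF M) - dl (FF M) (1 : G))

omit hp in
theorem bcl {G : Type} [Group G] [Finite G] :
    IsCl (ellS ℓ (FF M) - dl (FF M) (1 : G)) :=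
  (cfs (FF M) G).sub_mem (H10.isCl_ellS ℓ (FF M)) H46.isIdem_one.1

omit hp in
theorem zz_cl {G : Type} [Group G] [Finite G] {f : G → FF M} (hf : IsCl f) : IsCl (zz ℓ f) :=
  H50.isCl_mulF hf bcl

/-- the elements with `z g ≠ 0` -/
theorem zz_ne (hD : DvrStmt) (hR : RegStmt) (hℓ : (ℓ : integralClosure ℤ ℂ) ∈ M) {G : Type}
    [Group G] [Finite G] {f : G → FF M} (hf : IsBlk f) (hDf : DF.DfE ℓ (ElAb ℓ) f ⊤) (g : G)
    (hg : zz ℓ f g ≠ 0) : (ℓ = 3 → DV ℓ (3 * ℓ) 2 g) ∧ (ℓ = 2 → DV ℓ (4 * ℓ) 1 g) := by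
  have hF : GoodF ℓ (FF M) := H50.fld ℓ hp.out M hℓ
  have hDz : DF.DfE ℓ (ElAb ℓ) (zz ℓ f) ⊤ :=
    DF.DfE.factor hF (fun n _ t => hf.1.1 t n) (fun n _ t => bcl t n) hDf
  apply dv hD ℓ g
  · intro hreg
    apply hg
    rw [zz, H10.mulF_sub_one, Pi.sub_apply, hR ℓ (FF M) hF G f hf.1 g hreg, sub_self]
  · intro Q hQ hQC
    apply hDz Q le_top hQ
    refine ⟨g, ?_, hg⟩
    rw [Subgroup.mem_centralizer_iff]
    intro q hq
    have := hQC hq
    rwa [Subgroup.mem_centralizer_singleton_iff] at this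

theorem res_zz {G : Type} [Group G] [Finite G] (hL : LamStmt)
    (hℓ : (ℓ : integralClosure ℤ ℂ) ∈ M) {f : G → FF M} (hf : IsBlk f) (hpos : Pos ℓ f ⊤)
    {χ : G → ℂ} (hχ : χ ∈ Irr G) (hχ1 : res M f χ = 1) {ψ : G → ℂ} (hψ : ψ ∈ Irr G) :
    (labF M ψ = labF M χ → res M (zz ℓ f) ψ = -1) ∧
      (labF M ψ ≠ labF M χ → res M (zz ℓ f) ψ = 0) := by
  classical
  have hft := Fintype.ofFinite G
  have hF : GoodF ℓ (FF M) := H50.fld ℓ hp.out M hℓ
  have hres : res M (zz ℓ f) ψ =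
      res M f ψ * (res M (ellS ℓ (FF M)) ψ - res M (dl (FF M) (1 : G)) ψ) := by
    rw [zz, H50.res_mul hf.1.1 bcl hψ, H50.res_sub]
  have hlab : ∀ (b : G → FF M) (ψ' : G → ℂ), labF M ψ = labF M ψ' → res M b ψ = res M b ψ' := by
    intro b ψ' h
    unfold res
    apply finsum_congr
    intro c
    have := congrFun h (Quotient.out c)
    unfold labF at this
    rw [this]
  constructor
  · intro h
    have h1 : res M f ψ = 1 := by rw [hlab f χ h, hχ1]
    have h2 : res M (dl (FF M) (1 : G)) ψ = 1 := (H50.isChar_res hψ).one hf.1.1 h1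
    obtain ⟨n, hn⟩ := hL ℓ (FF M) hF G f hf hpos
    have h3 : res M (ellS ℓ (FF M)) ψ = 0 :=
      H50.zero_of_nil hf.1.1 (H10.isCl_ellS ℓ (FF M)) (H50.isChar_res hψ) h1 hn
    rw [hres, h1, h2, h3, one_mul, zero_sub]
  · intro hne
    rw [hres]
    rcases H50.res_idem hf.1 hψ with h | h
    · rw [h, zero_mul]
    · exfalso
      apply hne
      funext g
      rw [← H50.res_clsum]
      exact H50.lab_of_res hf (H50.isChar_res hψ) h hχ hχ1 g

/-- the lift of a class function -/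
theorem lift (hT : TeiStmt) (hℓ : (ℓ : integralClosure ℤ ℂ) ∈ M) {G : Type} [Group G]
    {z : G → FF M} (hz : IsCl z) : ∃ F : G → ℂ, (∀ x y, F (y * x * y⁻¹) = F x) ∧
      (∀ x, F x ∈ W0 ℓ) ∧ (∀ x, IsIntegral ℤ (F x)) ∧ (∀ x, red M (F x) = z x) ∧
      ∀ x, F x ≠ 0 → z x ≠ 0 := by
  obtain ⟨h1, -, -⟩ := hT ℓ M hℓ
  choose L hL using h1
  refine ⟨fun x => L (z x), ?_, ?_, ?_, ?_, ?_⟩
  · intro x y
    show L (z (y * x * y⁻¹)) = L (z x)
    rw [hz]
  · exact fun x => (hL (z x)).1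
  · exact fun x => (hL (z x)).2.1
  · exact fun x => (hL (z x)).2.2.1
  · intro x hx h
    exact hx ((hL (z x)).2.2.2 h)

omit hM in
/-- the value of the central character of a character with integral central character -/
theorem red_om {G : Type} [Group G] [Finite G] {F : G → ℂ} {z : G → FF M}
    (hc : ∀ x y, F (y * x * y⁻¹) = F x) (hi : ∀ x, IsIntegral ℤ (F x))
    (hr : ∀ x, red M (F x) = z x) {a : G → ℂ}
    (ha : ∀ g, IsIntegral ℤ (omega (MonoidHom.id G) a g)) :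
    IsIntegral ℤ (omF F a) ∧ red M (omF F a) = res M z a := by
  have hft := Fintype.ofFinite G
  have h1 := H50.res_lift (M := M) (fun x => (⟨F x, hi x⟩ : integralClosure ℤ ℂ))
    (fun x y => by simp only [hc]) a ha
  have h2 : omF F a = H50.om F a := by
    rw [omF, H50.om, finsum_eq_sum_of_fintype]
  have h3 : z = fun t => Ideal.Quotient.mk M (⟨F t, hi t⟩ : integralClosure ℤ ℂ) := by
    funext t
    rw [← hr t, red_of (hi t)]
  rw [h2, h3]
  exact ⟨h1.2, h1.1.symm⟩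

/-- the residues of the central characters of the stabilisers of the chains -/
theorem red_omF {G : Type} [Group G] [Finite G] (hL : LamStmt)
    (hℓ : (ℓ : integralClosure ℤ ℂ) ∈ M) {f : G → FF M} (hf : IsBlk f) (hpos : Pos ℓ f ⊤)
    {χ : G → ℂ} (hχ : χ ∈ Irr G) (hχ1 : res M f χ = 1) {F : G → ℂ}
    (hc : ∀ x y, F (y * x * y⁻¹) = F x) (hi : ∀ x, IsIntegral ℤ (F x))
    (hr : ∀ x, red M (F x) = zz ℓ f x) {d : Finset (Subgroup G)} (hd : ∀ D ∈ d, IsPGroup ℓ D)
    (hd' : IsChain (· ≤ ·) (d : Set (Subgroup G))) {a : G → ℂ} (ha : a ∈ IrrS (stab d)) :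
    IsIntegral ℤ (omF F a) ∧ (labF M a = labF M χ → red M (omF F a) = -1) ∧
      (labF M a ≠ labF M χ → red M (omF F a) = 0) := by
  obtain ⟨h1, h2⟩ := red_om hc hi hr (fun g => omega_IrrS_integral ha g)
  obtain ⟨ψ, hψ, hab⟩ := labelAll ℓ M hℓ G d hd hd' a ha
  have h3 : res M (zz ℓ f) a = res M (zz ℓ f) ψ := by
    unfold res
    apply finsum_congr
    intro c
    have := congrFun hab (Quotient.out c)
    unfold labF at this
    rw [this]
  obtain ⟨k1, k2⟩ := res_zz hL hℓ hf hpos hχ hχ1 hψ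
  refine ⟨h1, ?_, ?_⟩
  · intro h
    rw [h2, h3]
    exact k1 (hab ▸ h)
  · intro h
    rw [h2, h3]
    exact k2 (fun h' => h (hab.trans h'))

end main

end Pool.Agent.PP.ML.H27
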