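import Pool.Agent.Helper27_ML.Common
import Pool.Agent.Helper86_ML.Chp

/-!
# Squad ML, stage 2, row NN2: four divides the alternating sum
-/

open scoped BigOperators

noncomputable section

namespace Pool.Agent.PP.ML.H27

open Pool.Agent.Helper51_AWC Pool.Agent.Helper79_WRA Pool.Agent.PP Pool.Agent.Helper98_CC
open Pool.Agent.Helper90_CC Pool.Agent.Helper97_CC

section comb

variable {ℓ : ℕ} [hp : Fact ℓ.Prime] {M : Ideal (integralClosure ℤ ℂ)} [hM : M.IsMaximal]

theorem ld_zero (m : ℕ) : LD M m 0 := by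
  refine ⟨1, 0, isIntegral_one, ?_, isIntegral_zero, by simp⟩
  rw [red_one]
  have hnt : Nontrivial (integralClosure ℤ ℂ ⧸ M) := Ideal.Quotient.nontrivial_iff.2 hM.ne_top
  exact one_ne_zero

theorem ld_sum (hLd : LdaStmt) (hℓ : (ℓ : integralClosure ℤ ℂ) ∈ M) {m : ℕ} {ι : Type}
    (s : Finset ι) (f : ι → ℂ) (h : ∀ i ∈ s, LD M m (f i)) : LD M m (∑ i ∈ s, f i) := by
  classical
  induction s using Finset.induction_on with
  | empty =>
    rw [Finset.sum_empty]
    exact ld_zero m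
  | insert a s ha ih =>
    rw [Finset.sum_insert ha]
    exact (hLd ℓ M hℓ).1 m _ _ (h a (Finset.mem_insert_self a s))
      (ih fun i hi => h i (Finset.mem_insert_of_mem hi))

theorem ld_smul (hLd : LdaStmt) (hℓ : (ℓ : integralClosure ℤ ℂ) ∈ M) {m : ℕ} (s : ℤ) {z : ℂ}
    (h : LD M m z) : LD M m ((s : ℂ) * z) :=
  (hLd ℓ M hℓ).2.2.1 m z (s : ℂ) h (isIntegral_algebraMap (R := ℤ) (A := ℂ) (x := s))

open Classical in
/-- from the divisibility of the sum of the `F a` and of the local differences to the alternating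
sum -/
theorem comb (hLd : LdaStmt) (hA : AlbStmt) (hℓ : (ℓ : integralClosure ℤ ℂ) ∈ M) {G : Type}
    [Group G] [Finite G] (hop : opCore ℓ G = ⊥) {χ : G → ℂ} (hχ : χ ∈ Irr G) {m : ℕ}
    (F : (G → ℂ) → ℂ) (s : ℤ) (hs : s * s = 1) (h1 : LD M m (altF ℓ F))
    (h2 : ∀ d : PChain ℓ G, LD M m (∑ a ∈ IR (stab d.mem), F a +
      (s : ℂ) * (((IR (stab d.mem)).filter fun a => labF M a = labF M χ).card : ℂ))) :
    LD M m (altSum ℓ M χ : ℂ) := by
  have hft := Fintype.ofFinite (Quotient (chainSetoid ℓ G))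
  have hb : ∀ F' : (G → ℂ) → ℂ, altF ℓ F' = ∑ q : Quotient (chainSetoid ℓ G),
      (-1) ^ q.out.length * ∑ a ∈ IR (stab q.out.mem), F' a := by
    intro F'
    rw [altF, finsum_eq_sum_of_fintype]
    refine Finset.sum_congr rfl fun q _ => ?_
    rw [finsum_mem_eq_finite_toFinset_sum _ (IrrS_finite _)]
    rfl
  have h3 := hA ℓ M hℓ G hop χ hχ
  have h4 : altF ℓ F + (s : ℂ) * (altSum ℓ M χ : ℂ) = ∑ q : Quotient (chainSetoid ℓ G),
      (((-1) ^ q.out.length : ℤ) : ℂ) * (∑ a ∈ IR (stab q.out.mem), F a +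
      (s : ℂ) * (((IR (stab q.out.mem)).filter fun a => labF M a = labF M χ).card : ℂ)) := by
    rw [h3, hb, hb, Finset.mul_sum, ← Finset.sum_add_distrib]
    refine Finset.sum_congr rfl fun q _ => ?_
    rw [Finset.sum_boole]
    push_cast
    ring
  have h5 : LD M m (altF ℓ F + (s : ℂ) * (altSum ℓ M χ : ℂ)) := by
    rw [h4]
    apply ld_sum hLd hℓ
    intro q _
    exact ld_smul hLd hℓ _ (h2 _)
  have h6 : (altSum ℓ M χ : ℂ) = (s : ℂ) * (altF ℓ F + (s : ℂ) * (altSum ℓ M χ : ℂ)) +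
      ((-s : ℤ) : ℂ) * altF ℓ F := by
    have h7 : (s : ℂ) * (s : ℂ) = 1 := by exact_mod_cast hs
    push_cast
    linear_combination (-(altSum ℓ M χ : ℂ)) * h7
  rw [h6]
  exact (hLd ℓ M hℓ).1 m _ _ (ld_smul hLd hℓ _ h5) (ld_smul hLd hℓ _ h1)

end comb

theorem nn2 (hNum : NumStmt) (hA : AlbStmt) (hT : TeiStmt) (hLd : LdaStmt) (hD : DvrStmt)
    (hChp : ChpStmt2) (hSqr : SqrStmt) (hL : LamStmt) (hR : RegStmt) : Nn2Stmt := by
  intro M hM hℓ G _ _ hop f hf hpos hDf χ hχ hχ1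
  classical
  have hp : Fact (Nat.Prime 2) := ⟨Nat.prime_two⟩
  obtain ⟨F, hc, hW, hi, hr, hne⟩ := lift (ℓ := 2) hT hℓ (zz_cl (ℓ := 2) (M := M) hf.1.1)
  have h1 := hNum 2 M hℓ G hop 8 F [F] hc hi (fun h hh => by
    rw [List.mem_singleton] at hh
    rw [hh]
    exact ⟨hc, hi⟩) (fun g hg => (zz_ne hD hR hℓ hf hDf g (hne g hg)).2 rfl)
  have h2 : LD M 4 (altF 2 fun a => omF F a ^ 2) := by
    obtain ⟨u, v, hu, hu0, hv, huv⟩ := h1
    refine ⟨u, 2 * v, hu, hu0, ?_, ?_⟩
    · exact (isIntegral_algebraMap (R := ℤ) (A := ℂ) (x := 2)).mul hv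
    · have h3 : (fun a : G → ℂ => omF F a * (List.map (fun h => omF h a) [F]).prod) =
          fun a => omF F a ^ 2 := by
        funext a
        rw [List.map_singleton, List.prod_singleton, pow_two]
      rw [h3] at huv
      rw [huv]
      push_cast
      ring
  have h3 : ∀ d : PChain 2 G, LD M 4 (∑ a ∈ IR (stab d.mem), omF F a ^ 2 +
      ((-1 : ℤ) : ℂ) * (((IR (stab d.mem)).filter fun a => labF M a = labF M χ).card : ℂ)) := by
    intro d
    have hro : ∀ a ∈ IR (stab d.mem), IsIntegral ℤ (omF F a) ∧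
        (labF M a = labF M χ → red M (omF F a) = -1) ∧
        (labF M a ≠ labF M χ → red M (omF F a) = 0) := fun a ha =>
      red_omF hL hℓ hf hpos hχ hχ1 hc hi hr d.pgroup d.chain (mem_IR.1 ha)
    have hneg : (-1 : FF M) = 1 := by
      have h5 : ((2 : ℤ) : FF M) = 0 := (intCast_FF hℓ 2).2 (by norm_num)
      have h6 : (1 : FF M) + 1 = 0 := by
        have : ((2 : ℤ) : FF M) = 1 + 1 := by push_cast; norm_num
        rw [← this]; exact h5
      exact (eq_neg_of_add_eq_zero_left h6).symm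
    have h0 : (0 : FF M) ≠ 1 := by
      have hnt : Nontrivial (integralClosure ℤ ℂ ⧸ M) := Ideal.Quotient.nontrivial_iff.2 hM.ne_top
      exact zero_ne_one
    have h4 := hSqr M hℓ (G → ℂ) (IR (stab d.mem)) (fun a => omF F a) (fun a ha => (hro a ha).1)
      (fun a ha => by
        by_cases h : labF M a = labF M χ
        · right
          rw [(hro a ha).2.1 h, hneg]
        · left
          exact (hro a ha).2.2 h)
      (H86.chpH (ℓ := 2) hChp (stab d.mem) F hc hW (IR (stab d.mem)) (fun a => mem_IR))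
    have h5 : ((IR (stab d.mem)).filter fun a => red M (omF F a) = 1) =
        (IR (stab d.mem)).filter fun a => labF M a = labF M χ := by
      apply Finset.filter_congr
      intro a ha
      constructor
      · intro h
        by_contra h'
        rw [(hro a ha).2.2 h'] at h
        exact h0 h
      · intro h
        rw [(hro a ha).2.1 h, hneg]
    rw [h5] at h4
    have h6 : ∑ a ∈ IR (stab d.mem), omF F a ^ 2 +
      ((-1 : ℤ) : ℂ) * (((IR (stab d.mem)).filter fun a => labF M a = labF M χ).card : ℂ) =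
      ∑ a ∈ IR (stab d.mem), omF F a ^ 2 -
        (((IR (stab d.mem)).filter fun a => labF M a = labF M χ).card : ℂ) := by
      push_cast
      ring
    rw [h6]
    exact h4
  have h4 := comb (ℓ := 2) hLd hA hℓ hop hχ _ (-1) (by norm_num) h2 h3
  have h5 := (hLd 2 M hℓ).2.2.2.2 2 (altSum 2 M χ) (by norm_num; exact h4)
  norm_num at h5
  exact h5

end Pool.Agent.PP.ML.H27
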